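import Pool.Agent.X59.CH.C

/-!
# Bond overlap of the Edwards-Anderson ground states under a small perturbation

On the torus `(ℤ/2L)^d` with Gaussian couplings `J`, perturbed to `(1 - p) J + √(2p - p²) J'`, the
absolute value of the expected bond overlap of the ground states is at most `1 - c √p`, with `c > 0` depending only on `d`.
-/

set_option autoImplicit false

open MeasureTheory ProbabilityTheory Finset

namespace Pool.Agent.Results.MP_a964b6_mp.BondOverlapSqrt

/-- the sites of the torus: the cube `{-L, …, L}^d` with opposite faces identified -/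
abbrev Site (d L : ℕ) : Type := Fin d → ZMod (2 * L)

/-- the bond `(v, i)` joins `v` and `v + e_i` -/
abbrev Bond (d L : ℕ) : Type := Site d L × Fin d

/-- the second end point -/
def Bond.tgt {d L : ℕ} (e : Bond d L) : Site d L := e.1 + Pi.single e.2 1

/-- `σ` is a ground state of the Edwards-Anderson Hamiltonian `-∑ J_e σ σ`: a minimiser among all
configurations of spins `1`, `-1` -/
def IsGroundState {d L : ℕ} [NeZero L] (J : Bond d L → ℝ) (σ : Site d L → ℝ) : Prop :=
  (∀ x, σ x = 1 ∨ σ x = -1) ∧ ∀ τ : Site d L → ℝ, (∀ x, τ x = 1 ∨ τ x = -1) →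
    -∑ e : Bond d L, J e * (σ e.1 * σ e.tgt) ≤ -∑ e : Bond d L, J e * (τ e.1 * τ e.tgt)

/-- the perturbed couplings (first kind), from the pairs `(J_e, J'_e)` -/
noncomputable def perturbed {d L : ℕ} (p : ℝ) (x : Bond d L → ℝ × ℝ) : Bond d L → ℝ :=
  fun e => (1 - p) * (x e).1 + Real.sqrt (2 * p - p ^ 2) * (x e).2

open Pool.Agent.X59.CH in
theorem card_nb {d L : ℕ} [NeZero L] (e : Bond d L) :
    (nb (fun e : Bond d L => e.1) Bond.tgt e).card ≤ 2 * d := by
  classical
  have hsub : nb (fun e : Bond d L => e.1) Bond.tgt e ⊆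
      (univ.image fun i : Fin d => ((e.1, i) : Bond d L)) ∪
        univ.image fun i : Fin d => ((e.1 - Pi.single i 1, i) : Bond d L) := by
    rintro ⟨v, i⟩ hf
    unfold nb at hf
    rw [mem_filter] at hf
    rw [mem_union, mem_image, mem_image]
    rcases hf.2 with h | h
    · left
      exact ⟨i, mem_univ _, Prod.ext h.symm rfl⟩
    · right
      refine ⟨i, mem_univ _, Prod.ext ?_ rfl⟩
      have h' : v + Pi.single i 1 = e.1 := h
      show e.1 - Pi.single i 1 = v
      rw [← h', add_sub_cancel_right]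
  refine (card_le_card hsub).trans ((card_union_le _ _).trans ?_)
  have h1 := card_image_le (s := (univ : Finset (Fin d))) (f := fun i => ((e.1, i) : Bond d L))
  have h2 := card_image_le (s := (univ : Finset (Fin d)))
    (f := fun i => ((e.1 - Pi.single i 1, i) : Bond d L))
  rw [card_univ, Fintype.card_fin] at h1 h2
  omega

theorem ends_ne {d L : ℕ} [NeZero L] (e : Bond d L) : e.1 ≠ e.tgt := by
  intro h
  have h1 := congrFun h e.2
  unfold Bond.tgt at h1
  rw [Pi.add_apply, Pi.single_eq_same] at h1
  have h2 : (1 : ZMod (2 * L)) = 0 := by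
    have := (left_eq_add (a := e.1 e.2) (b := (1 : ZMod (2 * L)))).1 h1
    exact this
  have h3 : 2 * L ∣ 1 := by
    rw [← ZMod.natCast_eq_zero_iff]
    exact_mod_cast h2
  have h4 := Nat.le_of_dvd one_pos h3
  have h5 := Nat.pos_of_ne_zero (NeZero.ne L)
  omega

/-- For every dimension `d` there is `c > 0` such that for every torus `(ℤ/2L)^d`, every bond and
every `0 < p < 1` the expected bond overlap of the ground states (chosen by any measurable rule `g`)
for `J` and for `(1 - p) J + √(2p - p²) J'` has absolute value at most `1 - c √p`. -/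
theorem result (d : ℕ) : ∃ c : ℝ, 0 < c ∧ ∀ (L : ℕ) [NeZero L] (p : ℝ), 0 < p → p < 1 →
    ∀ g : (Bond d L → ℝ) → (Site d L → ℝ), Measurable g → (∀ J, IsGroundState J (g J)) →
    ∀ e : Bond d L,
      |∫ x : Bond d L → ℝ × ℝ, (g (fun f => (x f).1) e.1 * g (fun f => (x f).1) e.tgt) *
        (g (perturbed p x) e.1 * g (perturbed p x) e.tgt)
        ∂(Measure.pi fun _ => (gaussianReal 0 1).prod (gaussianReal 0 1))| ≤
      1 - c * Real.sqrt p := by
  classical
  refine ⟨Pool.Agent.X59.CH2.cst (2 * d), Pool.Agent.X59.CH2.cst_pos _, ?_⟩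
  intro L _ p hp0 hp1 g hg hgs e
  exact Pool.Agent.X59.CH2.main (fun e : Bond d L => e.1) Bond.tgt (ends_ne e) hp0 hp1 hg
    (fun J => hgs J) (card_nb e)

end Pool.Agent.Results.MP_a964b6_mp.BondOverlapSqrt
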